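import Mathlib

/-!
# Exterior algebras in characteristic three
-/

set_option autoImplicit false

namespace Pool.Agent.Y768.SP

universe u

open ExteriorAlgebra

noncomputable section

variable {F : Type u} [Field F] {M : Type u} [AddCommGroup M] [Module F M]

/-- product of the vectors of a list -/
def W (l : List M) : ExteriorAlgebra F M := (l.map (ι F)).prod

theorem W_nil : (W [] : ExteriorAlgebra F M) = 1 := rfl

theorem W_cons (v : M) (l : List M) : (W (v :: l) : ExteriorAlgebra F M) = ι F v * W l := by
  simp [W]

theorem W_append (l l' : List M) : (W (l ++ l') : ExteriorAlgebra F M) = W l * W l' := by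
  simp [W]

theorem W_ofFn {n : ℕ} (v : Fin n → M) :
    (W (List.ofFn v) : ExteriorAlgebra F M) = ιMulti F n v := by
  rw [ιMulti_apply, W, List.map_ofFn]
  rfl

theorem ext_ind {p : ExteriorAlgebra F M → Prop} (hW : ∀ l : List M, p (W l))
    (hadd : ∀ x y, p x → p y → p (x + y)) (hsmul : ∀ (c : F) x, p x → p (c • x))
    (x : ExteriorAlgebra F M) : p x := by
  have hx : x ∈ Submodule.span F (Set.range (W : List M → ExteriorAlgebra F M)) := by
    induction x using ExteriorAlgebra.induction with
    | algebraMap r =>
      rw [Algebra.algebraMap_eq_smul_one]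
      exact Submodule.smul_mem _ _ (Submodule.subset_span ⟨[], rfl⟩)
    | ι v => exact Submodule.subset_span ⟨[v], by simp [W]⟩
    | add a b ha hb => exact Submodule.add_mem _ ha hb
    | mul a b ha hb =>
      induction ha using Submodule.span_induction with
      | mem a ha =>
        obtain ⟨l, rfl⟩ := ha
        induction hb using Submodule.span_induction with
        | mem b hb =>
          obtain ⟨l', rfl⟩ := hb
          exact Submodule.subset_span ⟨l ++ l', W_append _ _⟩
        | zero => rw [mul_zero]; exact Submodule.zero_mem _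
        | add x y _ _ h1 h2 => rw [mul_add]; exact Submodule.add_mem _ h1 h2
        | smul c x _ h1 => rw [mul_smul_comm]; exact Submodule.smul_mem _ _ h1
      | zero => rw [zero_mul]; exact Submodule.zero_mem _
      | add x y _ _ h1 h2 => rw [add_mul]; exact Submodule.add_mem _ h1 h2
      | smul c x _ h1 => rw [smul_mul_assoc]; exact Submodule.smul_mem _ _ h1
  induction hx using Submodule.span_induction with
  | mem a ha => obtain ⟨l, rfl⟩ := ha; exact hW l
  | zero =>
    have := hsmul 0 _ (hW [])
    rwa [zero_smul] at this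
  | add x y _ _ h1 h2 => exact hadd _ _ h1 h2
  | smul c x _ h1 => exact hsmul _ _ h1

theorem ι_swap (v w : M) : ι F v * ι F w = -(ι F w * ι F v) :=
  eq_neg_of_add_eq_zero_left (ι_add_mul_swap v w)

theorem ι_W (v : M) (l : List M) :
    ι F v * W l = (-1 : F) ^ l.length • (W l * ι F v : ExteriorAlgebra F M) := by
  induction l with
  | nil => simp [W_nil]
  | cons w l ih =>
    rw [W_cons, ← mul_assoc, ι_swap, neg_mul, mul_assoc, ih, List.length_cons, pow_succ,
      mul_smul_comm, mul_neg_one, neg_smul, mul_assoc]

theorem W_comm (l l' : List M) :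
    W l * W l' = (-1 : F) ^ (l.length * l'.length) • (W l' * W l : ExteriorAlgebra F M) := by
  induction l with
  | nil => simp [W_nil]
  | cons w l ih =>
    rw [W_cons, mul_assoc, ih, mul_smul_comm, ← mul_assoc, ι_W, smul_mul_assoc, smul_smul,
      mul_assoc, List.length_cons]
    congr 1
    rw [add_mul, one_mul, pow_add]

theorem sgn_cases (n : ℕ) : (-1 : F) ^ n = 1 ∨ (-1 : F) ^ n = -1 := neg_one_pow_eq_or F n

theorem three_smul [CharP F 3] {A : Type u} [AddCommGroup A] [Module F A] (x : A) :
    x + x + x = 0 := by
  have h : (3 : F) = 0 := by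
    have := CharP.cast_eq_zero F 3
    exact_mod_cast this
  calc x + x + x = (3 : F) • x := by
        rw [show (3 : F) = 1 + 1 + 1 by norm_num, add_smul, add_smul, one_smul]
    _ = 0 := by rw [h, zero_smul]

/-- the sum of the products in all orders -/
def s3f (a b c : ExteriorAlgebra F M) : ExteriorAlgebra F M :=
  a * b * c + a * c * b + b * a * c + b * c * a + c * a * b + c * b * a

theorem s3f_swap1 (a b c : ExteriorAlgebra F M) : s3f a b c = s3f b a c := by
  unfold s3f; abel

theorem s3f_swap2 (a b c : ExteriorAlgebra F M) : s3f a b c = s3f b c a := by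
  unfold s3f; abel

theorem s3f_add (a a' b c : ExteriorAlgebra F M) :
    s3f (a + a') b c = s3f a b c + s3f a' b c := by
  unfold s3f
  simp only [add_mul, mul_add]
  abel

theorem s3f_smul (r : F) (a b c : ExteriorAlgebra F M) : s3f (r • a) b c = r • s3f a b c := by
  unfold s3f
  simp only [smul_mul_assoc, mul_smul_comm, smul_add]

theorem sgn_mul (i j : ℕ) : (-1 : F) ^ (i * j) = if Odd i ∧ Odd j then -1 else 1 := by
  split_ifs with h
  · exact (h.1.mul h.2).neg_one_pow
  · refine Even.neg_one_pow ?_
    rw [← Nat.not_odd_iff_even, Nat.odd_mul]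
    exact h

theorem s3f_W [CharP F 3] (l m n : List M) :
    s3f (W l : ExteriorAlgebra F M) (W m) (W n) = 0 := by
  have e1 : W n * W m = (-1 : F) ^ (m.length * n.length) •
      (W m * W n : ExteriorAlgebra F M) := by rw [W_comm n m, mul_comm n.length]
  have e2 : W m * W l = (-1 : F) ^ (l.length * m.length) •
      (W l * W m : ExteriorAlgebra F M) := by rw [W_comm m l, mul_comm m.length]
  have e3 : W n * W l = (-1 : F) ^ (l.length * n.length) •
      (W l * W n : ExteriorAlgebra F M) := by rw [W_comm n l, mul_comm n.length]
  unfold s3f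
  set P : ExteriorAlgebra F M := W l * W m * W n with hP
  have t2 : W l * W n * W m = (-1 : F) ^ (m.length * n.length) • P := by
    rw [mul_assoc, e1, mul_smul_comm, ← mul_assoc]
  have t3 : W m * W l * W n = (-1 : F) ^ (l.length * m.length) • P := by
    rw [e2, smul_mul_assoc]
  have t4 : W m * W n * W l =
      ((-1 : F) ^ (l.length * n.length) * (-1 : F) ^ (l.length * m.length)) • P := by
    rw [mul_assoc, e3, mul_smul_comm, ← mul_assoc, e2, smul_mul_assoc, smul_smul]
  have t5 : W n * W l * W m =
      ((-1 : F) ^ (l.length * n.length) * (-1 : F) ^ (m.length * n.length)) • P := by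
    rw [e3, smul_mul_assoc, t2, smul_smul]
  have t6 : W n * W m * W l = ((-1 : F) ^ (m.length * n.length) *
      ((-1 : F) ^ (l.length * n.length) * (-1 : F) ^ (l.length * m.length))) • P := by
    rw [e1, smul_mul_assoc, t4, smul_smul]
  rw [t2, t3, t4, t5, t6]
  have h3 := three_smul (F := F) P
  have h6 : P + P + P + P + P + P = 0 := by
    rw [show P + P + P + P + P + P = (P + P + P) + (P + P + P) by abel, h3, add_zero]
  rw [sgn_mul, sgn_mul, sgn_mul]
  by_cases hl : Odd l.length <;> by_cases hm : Odd m.length <;> by_cases hn : Odd n.length <;>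
    simp only [hl, hm, hn, and_true, and_false, if_true, if_false, mul_one, one_smul, and_self,
      mul_neg, neg_neg, neg_smul] <;>
    first
      | exact h6
      | abel

/-- the sum of the products in all orders vanishes in characteristic three -/
theorem s3 [CharP F 3] (a b c : ExteriorAlgebra F M) : s3f a b c = 0 := by
  have h1 : ∀ (a : ExteriorAlgebra F M) (m n : List M), s3f a (W m) (W n) = 0 := by
    intro a m n
    refine ext_ind (p := fun a => s3f a (W m) (W n) = 0) (fun l => s3f_W l m n) ?_ ?_ a
    · intro x y hx hy; rw [s3f_add, hx, hy, add_zero]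
    · intro r x hx; rw [s3f_smul, hx, smul_zero]
  have h2 : ∀ (b a : ExteriorAlgebra F M) (n : List M), s3f b a (W n) = 0 := by
    intro b a n
    refine ext_ind (p := fun b => s3f b a (W n) = 0) (fun m => ?_) ?_ ?_ b
    · rw [s3f_swap1]; exact h1 a m n
    · intro x y hx hy; rw [s3f_add, hx, hy, add_zero]
    · intro r x hx; rw [s3f_smul, hx, smul_zero]
  rw [s3f_swap2, s3f_swap2]
  refine ext_ind (p := fun c => s3f c a b = 0) (fun n => ?_) ?_ ?_ c
  · rw [s3f_swap2]; exact h2 a b n
  · intro x y hx hy; rw [s3f_add, hx, hy, add_zero]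
  · intro r x hx; rw [s3f_smul, hx, smul_zero]

/-- `v X v = 0` -/
theorem ι_mul_ι (v : M) (X : ExteriorAlgebra F M) : ι F v * X * ι F v = 0 := by
  refine ext_ind (p := fun X => ι F v * X * ι F v = 0) (fun l => ?_) ?_ ?_ X
  · rw [ι_W, smul_mul_assoc, mul_assoc, ι_sq_zero, mul_zero, smul_zero]
  · intro x y hx hy; rw [mul_add, add_mul, hx, hy, add_zero]
  · intro r x hx; rw [mul_smul_comm, smul_mul_assoc, hx, smul_zero]

/-- `v X w = - w X v` -/
theorem ι_mul_ι_swap (v w : M) (X : ExteriorAlgebra F M) :
    ι F v * X * ι F w = -(ι F w * X * ι F v) := by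
  have h := ι_mul_ι (v + w) X
  rw [map_add, add_mul, add_mul, mul_add, mul_add, ι_mul_ι, ι_mul_ι, zero_add, add_zero] at h
  exact eq_neg_of_add_eq_zero_left h

/-- products of two vectors are central -/
theorem central2 (v w : M) (X : ExteriorAlgebra F M) :
    ι F v * ι F w * X = X * (ι F v * ι F w) := by
  refine ext_ind (p := fun X => ι F v * ι F w * X = X * (ι F v * ι F w)) (fun l => ?_) ?_ ?_ X
  · have h : (W [v, w] : ExteriorAlgebra F M) = ι F v * ι F w := by simp [W]
    rw [← h, W_comm]
    have : Even ([v, w].length * l.length) := by simp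
    rw [this.neg_one_pow, one_smul]
  · intro x y hx hy; rw [mul_add, add_mul, hx, hy]
  · intro r x hx; rw [mul_smul_comm, smul_mul_assoc, hx]

/-- products of an even number of vectors are central -/
theorem W_central {l : List M} (hl : Even l.length) (X : ExteriorAlgebra F M) :
    W l * X = X * W l := by
  refine ext_ind (p := fun X => W l * X = X * W l) (fun m => ?_) ?_ ?_ X
  · rw [W_comm, (hl.mul_right _).neg_one_pow, one_smul]
  · intro x y hx hy; rw [mul_add, add_mul, hx, hy]
  · intro r x hx; rw [mul_smul_comm, smul_mul_assoc, hx]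

/-- twice zero is zero only for zero -/
theorem two_cancel [CharP F 3] {A : Type u} [AddCommGroup A] [Module F A] {x : A}
    (h : x + x = 0) : x = 0 := by
  have h3 := three_smul (F := F) x
  rwa [h, zero_add] at h3

theorem s3_aab [CharP F 3] (a b : ExteriorAlgebra F M) :
    a * a * b + a * b * a + b * a * a = 0 := by
  apply two_cancel (F := F)
  have h := s3 a a b
  unfold s3f at h
  rw [← h]
  abel

/-- the cube is the cube of the constant term -/
theorem cube [CharP F 3] (x : ExteriorAlgebra F M) :
    x * x * x = algebraMap F _ ((algebraMapInv x) ^ 3) := by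
  refine ext_ind (p := fun x => x * x * x = algebraMap F _ ((algebraMapInv x) ^ 3))
    (fun l => ?_) ?_ ?_ x
  · cases l with
    | nil => simp [W_nil]
    | cons v l =>
      have h1 : algebraMapInv (W (v :: l) : ExteriorAlgebra F M) = 0 := by
        rw [W_cons, map_mul]
        have : algebraMapInv (ι F v : ExteriorAlgebra F M) = 0 := by
          simp [algebraMapInv]
        rw [this, zero_mul]
      rw [h1]
      have h2 : (W (v :: l) * W (v :: l) : ExteriorAlgebra F M) = 0 := by
        rw [W_cons, ← mul_assoc, ι_mul_ι, zero_mul]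
      rw [h2]
      simp
  · intro x y hx hy
    have h1 := s3_aab x y
    have h2 := s3_aab y x
    have e : (x + y) * (x + y) * (x + y) = x * x * x + y * y * y +
        (x * x * y + x * y * x + y * x * x) + (y * y * x + y * x * y + x * y * y) := by
      simp only [add_mul, mul_add]
      abel
    rw [e, h1, h2, add_zero, add_zero, hx, hy, ← map_add]
    congr 1
    rw [map_add]
    have h3 : (3 : F) = 0 := by
      have := CharP.cast_eq_zero F 3
      exact_mod_cast this
    linear_combination (-(algebraMapInv x) ^ 2 * algebraMapInv y -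
      algebraMapInv x * (algebraMapInv y) ^ 2) * h3
  · intro r x hx
    rw [smul_mul_smul_comm, smul_mul_smul_comm, hx, map_smul, Algebra.smul_def, ← map_mul]
    congr 1
    simp only [smul_eq_mul]
    ring

end

end Pool.Agent.Y768.SP
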