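import Pool.Agent.Y768.SP.Basic
import Pool.Agent.Y768.SP.Ext

/-!
# The commutative alternative algebras in characteristic three
-/

set_option autoImplicit false

namespace Pool.Agent.Y768.SP

universe u

open ExteriorAlgebra

noncomputable section

variable (F : Type u) [Field F] (N : ℕ)

/-- the exterior algebra of `F ^ N` -/
abbrev Ex : Type u := ExteriorAlgebra F (Fin N → F)

/-- the coefficient of the volume form -/
def tau : Ex F N →ₗ[F] F := liftAlternating (Pi.single N Matrix.detRowAlternating)

variable {F} {N}

theorem tau_W {l : List (Fin N → F)} (hl : l.length ≠ N) : tau F N (W l) = 0 := by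
  have h := W_ofFn (F := F) l.get
  rw [List.ofFn_get] at h
  rw [h, tau, liftAlternating_apply_ιMulti, Pi.single_eq_of_ne hl]
  rfl

theorem tau_basis : tau F N (W (List.ofFn fun i : Fin N => (Pi.single i 1 : Fin N → F))) = 1 := by
  rw [W_ofFn, tau, liftAlternating_apply_ιMulti, Pi.single_eq_same]
  have : Matrix.detRowAlternating (fun i : Fin N => (Pi.single i 1 : Fin N → F)) =
      Matrix.det (1 : Matrix (Fin N) (Fin N) F) := by
    congr 1
    funext i j
    simp [Matrix.one_apply, Pi.single_apply, eq_comm]
  rw [this, Matrix.det_one]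

theorem tau_anti (hN : Even N) (v : Fin N → F) (X : Ex F N) :
    tau F N (ι F v * X) + tau F N (X * ι F v) = 0 := by
  refine ext_ind (p := fun X => tau F N (ι F v * X) + tau F N (X * ι F v) = 0)
    (fun l => ?_) ?_ ?_ X
  · rcases Nat.even_or_odd l.length with h | h
    · have h1 : tau F N (ι F v * W l) = 0 := by
        rw [← W_cons]
        apply tau_W
        rw [List.length_cons]
        intro h5
        have h6 := h.add_one
        rw [h5] at h6
        exact (Nat.not_even_iff_odd.2 h6) hN
      have h2 : tau F N (W l * ι F v) = 0 := by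
        have e : (W l * ι F v : Ex F N) = W (l ++ [v]) := by
          rw [W_append]; simp [W]
        rw [e]
        apply tau_W
        rw [List.length_append, List.length_singleton]
        intro h5
        have h6 := h.add_one
        rw [h5] at h6
        exact (Nat.not_even_iff_odd.2 h6) hN
      rw [h1, h2, add_zero]
    · rw [ι_W, h.neg_one_pow, neg_one_smul, map_neg, neg_add_cancel]
  · intro x y hx hy
    rw [mul_add, add_mul, map_add, map_add, add_add_add_comm, hx, hy, add_zero]
  · intro r x hx
    rw [mul_smul_comm, smul_mul_assoc, map_smul, map_smul, ← smul_add, hx, smul_zero]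

variable (F) (N)

/-- the algebra -/
def Al : Type u := (Fin N → F) × Ex F N × Ex F N × F

instance : AddCommGroup (Al F N) := inferInstanceAs (AddCommGroup ((Fin N → F) × Ex F N × Ex F N × F))

instance : Module F (Al F N) := inferInstanceAs (Module F ((Fin N → F) × Ex F N × Ex F N × F))

variable {F} {N}

/-- components -/
def cv (x : Al F N) : Fin N → F := x.1
/-- components -/
def cp (x : Al F N) : Ex F N := x.2.1
/-- components -/
def cq (x : Al F N) : Ex F N := x.2.2.1
/-- components -/
def cz (x : Al F N) : F := x.2.2.2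

theorem al_ext {x y : Al F N} (h1 : cv x = cv y) (h2 : cp x = cp y) (h3 : cq x = cq y)
    (h4 : cz x = cz y) : x = y :=
  Prod.ext h1 (Prod.ext h2 (Prod.ext h3 h4))

theorem cv_add (x y : Al F N) : cv (x + y) = cv x + cv y := rfl
theorem cp_add (x y : Al F N) : cp (x + y) = cp x + cp y := rfl
theorem cq_add (x y : Al F N) : cq (x + y) = cq x + cq y := rfl
theorem cz_add (x y : Al F N) : cz (x + y) = cz x + cz y := rfl
theorem cv_sub (x y : Al F N) : cv (x - y) = cv x - cv y := rfl
theorem cp_sub (x y : Al F N) : cp (x - y) = cp x - cp y := rfl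
theorem cq_sub (x y : Al F N) : cq (x - y) = cq x - cq y := rfl
theorem cz_sub (x y : Al F N) : cz (x - y) = cz x - cz y := rfl
theorem cv_smul (c : F) (x : Al F N) : cv (c • x) = c • cv x := rfl
theorem cp_smul (c : F) (x : Al F N) : cp (c • x) = c • cp x := rfl
theorem cq_smul (c : F) (x : Al F N) : cq (c • x) = c • cq x := rfl
theorem cz_smul (c : F) (x : Al F N) : cz (c • x) = c • cz x := rfl
theorem cv_zero : cv (0 : Al F N) = 0 := rfl
theorem cp_zero : cp (0 : Al F N) = 0 := rfl
theorem cq_zero : cq (0 : Al F N) = 0 := rfl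
theorem cz_zero : cz (0 : Al F N) = 0 := rfl

/-- the product -/
instance : Mul (Al F N) := ⟨fun x y => (0, cp x * ι F (cv y) + cp y * ι F (cv x),
  ι F (cv y) * cq x + ι F (cv x) * cq y - (cp x * cp y + cp y * cp x),
  tau F N (cq x * cp y) + tau F N (cq y * cp x))⟩

theorem cv_mul (x y : Al F N) : cv (x * y) = 0 := rfl
theorem cp_mul (x y : Al F N) : cp (x * y) = cp x * ι F (cv y) + cp y * ι F (cv x) := rfl
theorem cq_mul (x y : Al F N) : cq (x * y) =
    ι F (cv y) * cq x + ι F (cv x) * cq y - (cp x * cp y + cp y * cp x) := rfl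
theorem cz_mul (x y : Al F N) : cz (x * y) =
    tau F N (cq x * cp y) + tau F N (cq y * cp x) := rfl

instance : NonUnitalNonAssocRing (Al F N) :=
  { (inferInstance : AddCommGroup (Al F N)), (inferInstance : Mul (Al F N)) with
    left_distrib := by
      intro x y z
      refine al_ext ?_ ?_ ?_ ?_
      · simp only [cv_mul, cv_add, add_zero]
      · simp only [cp_mul, cp_add, cv_add, map_add, mul_add, add_mul]
        abel
      · simp only [cq_mul, cq_add, cp_add, cv_add, map_add, mul_add, add_mul]
        abel
      · simp only [cz_mul, cz_add, cq_add, cp_add, mul_add, add_mul, map_add]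
        abel
    right_distrib := by
      intro x y z
      refine al_ext ?_ ?_ ?_ ?_
      · simp only [cv_mul, cv_add, add_zero]
      · simp only [cp_mul, cp_add, cv_add, map_add, mul_add, add_mul]
        abel
      · simp only [cq_mul, cq_add, cp_add, cv_add, map_add, mul_add, add_mul]
        abel
      · simp only [cz_mul, cz_add, cq_add, cp_add, mul_add, add_mul, map_add]
        abel
    zero_mul := by
      intro x
      refine al_ext ?_ ?_ ?_ ?_
      · simp only [cv_mul, cv_zero]
      · simp only [cp_mul, cp_zero, cv_zero, map_zero, mul_zero, zero_mul, add_zero]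
      · simp only [cq_mul, cq_zero, cp_zero, cv_zero, map_zero, mul_zero, zero_mul, add_zero,
          sub_zero]
      · simp only [cz_mul, cz_zero, cq_zero, cp_zero, mul_zero, zero_mul, map_zero, add_zero]
    mul_zero := by
      intro x
      refine al_ext ?_ ?_ ?_ ?_
      · simp only [cv_mul, cv_zero]
      · simp only [cp_mul, cp_zero, cv_zero, map_zero, mul_zero, zero_mul, add_zero]
      · simp only [cq_mul, cq_zero, cp_zero, cv_zero, map_zero, mul_zero, zero_mul, add_zero,
          sub_zero]
      · simp only [cz_mul, cz_zero, cq_zero, cp_zero, mul_zero, zero_mul, map_zero, add_zero] }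

instance : IsScalarTower F (Al F N) (Al F N) := by
  refine ⟨fun c x y => ?_⟩
  rw [smul_eq_mul, smul_eq_mul]
  refine al_ext ?_ ?_ ?_ ?_
  · simp only [cv_mul, cv_smul, smul_zero]
  · simp only [cp_mul, cp_smul, cv_smul, map_smul, smul_mul_assoc, mul_smul_comm, smul_add]
  · simp only [cq_mul, cq_smul, cp_smul, cv_smul, map_smul, smul_mul_assoc, mul_smul_comm,
      smul_add, smul_sub]
  · simp only [cz_mul, cz_smul, cq_smul, cp_smul, map_smul, smul_mul_assoc, mul_smul_comm,
      smul_add]

instance : SMulCommClass F (Al F N) (Al F N) := by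
  refine ⟨fun c x y => ?_⟩
  rw [smul_eq_mul, smul_eq_mul]
  refine al_ext ?_ ?_ ?_ ?_
  · simp only [cv_mul, cv_smul, smul_zero]
  · simp only [cp_mul, cp_smul, cv_smul, map_smul, smul_mul_assoc, mul_smul_comm, smul_add]
  · simp only [cq_mul, cq_smul, cp_smul, cv_smul, map_smul, smul_mul_assoc, mul_smul_comm,
      smul_add, smul_sub]
  · simp only [cz_mul, cz_smul, cq_smul, cp_smul, map_smul, smul_mul_assoc, mul_smul_comm,
      smul_add]

theorem al_comm : IsCommutative (Al F N) := by
  intro x y
  refine al_ext ?_ ?_ ?_ ?_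
  · simp only [cv_mul]
  · simp only [cp_mul]; abel
  · simp only [cq_mul]; abel
  · simp only [cz_mul]; abel

theorem ring_q {R : Type u} [Ring R] (h3 : ∀ x : R, x + x + x = 0) {v w a b c d : R}
    (hv : v * v = 0) (hw : w * v + v * w = 0)
    (s1 : a * a * w + a * w * a + w * a * a = 0)
    (s2 : a * c * v + a * v * c + c * a * v + c * v * a + v * a * c + v * c * a = 0) :
    w * (v * b + v * b - (a * a + a * a)) - ((a * v + a * v) * c + c * (a * v + a * v)) =
      v * (w * b + v * d - (a * c + c * a)) - (a * (a * w + c * v) + (a * w + c * v) * a) := by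
  rw [← sub_eq_zero]
  have e : w * (v * b + v * b - (a * a + a * a)) - ((a * v + a * v) * c + c * (a * v + a * v)) -
      (v * (w * b + v * d - (a * c + c * a)) - (a * (a * w + c * v) + (a * w + c * v) * a)) =
      (w * v + v * w) * b + (w * v + v * w) * b - (v * w * b + v * w * b + v * w * b) -
        v * v * d + (a * a * w + a * w * a + w * a * a) - (w * a * a + w * a * a + w * a * a) +
        (a * c * v + a * v * c + c * a * v + c * v * a + v * a * c + v * c * a) -
        (a * v * c + a * v * c + a * v * c) - (c * a * v + c * a * v + c * a * v) := by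
    noncomm_ring
  rw [e, hw, hv, s1, s2, h3, h3, h3, h3]
  simp

theorem al_altL [CharP F 3] (hN : Even N) (x y : Al F N) : (x * x) * y = x * (x * y) := by
  refine al_ext ?_ ?_ ?_ ?_
  · simp only [cv_mul]
  · simp only [cp_mul, cv_mul, map_zero, mul_zero, add_zero]
    have h1 : ι F (cv y) * ι F (cv x) = -(ι F (cv x) * ι F (cv y) : Ex F N) := ι_swap _ _
    have h2 := three_smul (F := F) (cp x * (ι F (cv x) * ι F (cv y)))
    rw [add_mul, add_mul, mul_assoc, mul_assoc, mul_assoc, ι_sq_zero, mul_zero, add_zero, h1,
      mul_neg, zero_add]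
    exact eq_neg_of_add_eq_zero_left h2
  · simp only [cq_mul, cp_mul, cv_mul, map_zero, zero_mul, add_zero, zero_add]
    exact ring_q (three_smul (F := F)) (ι_sq_zero _) (ι_add_mul_swap _ _) (s3_aab _ _) (s3 _ _ _)
  · simp only [cz_mul, cp_mul, cq_mul, cv_mul, map_zero, mul_zero, zero_mul, add_zero]
    have h1 := tau_anti hN (cv y) (cq x * cp x)
    have h2 := tau_anti hN (cv x) (cq x * cp y)
    have h3 := tau_anti hN (cv x) (cq y * cp x)
    have h4 := congrArg (tau F N) (s3_aab (cp x) (cp y))
    have h5 : (3 : F) = 0 := by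
      have := CharP.cast_eq_zero F 3
      exact_mod_cast this
    simp only [mul_add, add_mul, mul_sub, sub_mul, map_add, map_sub, map_zero,
      ← mul_assoc] at h1 h2 h3 h4 ⊢
    linear_combination (-1 : F) * h1 - h2 - h3 + h4 + (tau F N (ι F (cv x) * cq x * cp y) +
      tau F N (cq y * cp x * ι F (cv x)) - tau F N (cp x * cp x * cp y)) * h5

theorem al_alt [CharP F 3] (hN : Even N) : IsAlternative (Al F N) := by
  intro x y
  refine ⟨al_altL hN x y, ?_⟩
  rw [al_comm (y * x) x, al_comm y x, ← al_altL hN, al_comm]

end

end Pool.Agent.Y768.SP
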