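import Pool.Agent.Y768.SP.Defs

/-!
# Consequences of identities
-/

set_option autoImplicit false

namespace Pool.Agent.Y768.SP

universe u

noncomputable section

theorem isJordan_of {A : Type u} [NonUnitalNonAssocRing A] (h1 : IsCommutative A)
    (h2 : IsAlternative A) : IsJordanAlg A := by
  refine ⟨h1, fun x y => ?_⟩
  rw [(h2 x (y * x)).1, (h2 x y).1, h1 _ x, h1 y x]

section cons

variable {F : Type u} [Field F]

/-- consequences of `S` -/
inductive Con (S : Set (Idn F)) : Idn F → Prop
  | inst (f : Idn F) (hf : f ∈ S) (ν : ℕ → Idn F) : Con S (FreeNonUnitalNonAssocAlgebra.lift F ν f)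
  | zero : Con S 0
  | add (x y : Idn F) : Con S x → Con S y → Con S (x + y)
  | smul (c : F) (x : Idn F) : Con S x → Con S (c • x)
  | mulL (a x : Idn F) : Con S x → Con S (a * x)
  | mulR (a x : Idn F) : Con S x → Con S (x * a)

theorem Con.neg {S : Set (Idn F)} {x : Idn F} (h : Con S x) : Con S (-x) := by
  have := Con.smul (-1 : F) x h
  rwa [neg_one_smul] at this

theorem Con.sub {S : Set (Idn F)} {x y : Idn F} (h : Con S x) (h' : Con S y) : Con S (x - y) := by
  rw [sub_eq_add_neg]
  exact Con.add _ _ h h'.neg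

theorem Con.sat {S : Set (Idn F)} {x : Idn F} (h : Con S x) (A : Type u)
    [NonUnitalNonAssocRing A] [Module F A] [IsScalarTower F A A] [SMulCommClass F A A]
    (hA : InVariety F S A) : Sat F A x := by
  induction h with
  | inst f hf μ =>
    intro ν
    have : ((FreeNonUnitalNonAssocAlgebra.lift F ν).comp (FreeNonUnitalNonAssocAlgebra.lift F μ)) =
        FreeNonUnitalNonAssocAlgebra.lift F (fun i => FreeNonUnitalNonAssocAlgebra.lift F ν (μ i)) := by
      rw [← FreeNonUnitalNonAssocAlgebra.lift_unique]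
      funext i
      simp
    have h2 := hA f hf (fun i => FreeNonUnitalNonAssocAlgebra.lift F ν (μ i))
    rw [← this] at h2
    exact h2
  | zero => intro ν; exact map_zero _
  | add x y _ _ h1 h2 => intro ν; rw [map_add, h1 ν, h2 ν, add_zero]
  | smul c x _ h1 => intro ν; rw [map_smul, h1 ν, smul_zero]
  | mulL a x _ h1 => intro ν; rw [map_mul, h1 ν, mul_zero]
  | mulR a x _ h1 => intro ν; rw [map_mul, h1 ν, zero_mul]

theorem Con.mono {S T : Set (Idn F)} (hST : S ⊆ T) {x : Idn F} (h : Con S x) : Con T x := by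
  induction h with
  | inst f hf μ => exact Con.inst f (hST hf) μ
  | zero => exact Con.zero
  | add x y _ _ h1 h2 => exact Con.add _ _ h1 h2
  | smul c x _ h1 => exact Con.smul _ _ h1
  | mulL a x _ h1 => exact Con.mulL _ _ h1
  | mulR a x _ h1 => exact Con.mulR _ _ h1

theorem Con.compact {S : ℕ → Set (Idn F)} (hS : Monotone S) {x : Idn F}
    (h : Con (⋃ n, S n) x) : ∃ n, Con (S n) x := by
  induction h with
  | inst f hf μ =>
    obtain ⟨n, hn⟩ := Set.mem_iUnion.1 hf
    exact ⟨n, Con.inst f hn μ⟩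
  | zero => exact ⟨0, Con.zero⟩
  | add x y _ _ h1 h2 =>
    obtain ⟨n, hn⟩ := h1
    obtain ⟨m, hm⟩ := h2
    exact ⟨max n m, Con.add _ _ (hn.mono (hS (le_max_left _ _))) (hm.mono (hS (le_max_right _ _)))⟩
  | smul c x _ h1 => obtain ⟨n, hn⟩ := h1; exact ⟨n, Con.smul _ _ hn⟩
  | mulL a x _ h1 => obtain ⟨n, hn⟩ := h1; exact ⟨n, Con.mulL _ _ hn⟩
  | mulR a x _ h1 => obtain ⟨n, hn⟩ := h1; exact ⟨n, Con.mulR _ _ hn⟩

/-- the congruence of the consequences of `S` -/
def rc (S : Set (Idn F)) : RingCon (Idn F) where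
  r x y := Con S (x - y)
  iseqv := by
    refine ⟨fun x => ?_, fun {x y} h => ?_, fun {x y z} h h' => ?_⟩
    · rw [sub_self]; exact Con.zero
    · rw [← neg_sub]; exact h.neg
    · rw [← sub_add_sub_cancel x y z]; exact Con.add _ _ h h'
  mul' := by
    intro w x y z h h'
    have e : w * y - x * z = (w - x) * y + x * (y - z) := by
      rw [sub_mul, mul_sub, sub_add_sub_cancel]
    rw [e]
    exact Con.add _ _ (Con.mulR _ _ h) (Con.mulL _ _ h')
  add' := by
    intro w x y z h h'
    have e : w + y - (x + z) = (w - x) + (y - z) := by abel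
    rw [e]
    exact Con.add _ _ h h'

/-- the relatively free algebra -/
abbrev Rel (S : Set (Idn F)) : Type u := (rc S).Quotient

theorem rel_eq {S : Set (Idn F)} {x y : Idn F} :
    ((x : Idn F) : Rel S) = (y : Rel S) ↔ Con S (x - y) := (rc S).eq

instance relSMul (S : Set (Idn F)) : SMul F (Rel S) :=
  ⟨fun c => Quotient.map' (fun x => c • x) (by
    intro x y h
    have h' : Con S (x - y) := h
    show Con S (c • x - c • y)
    rw [← smul_sub]
    exact Con.smul _ _ h')⟩

theorem rel_smul {S : Set (Idn F)} (c : F) (x : Idn F) : ((c • x : Idn F) : Rel S) = c • (x : Rel S) :=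
  rfl

/-- the projection as an additive map -/
def relAdd (S : Set (Idn F)) : Idn F →+ Rel S where
  toFun x := (x : Rel S)
  map_zero' := rfl
  map_add' _ _ := rfl

theorem relAdd_surj (S : Set (Idn F)) : Function.Surjective (relAdd S) := by
  intro x
  obtain ⟨y, rfl⟩ := Quotient.exists_rep x
  exact ⟨y, rfl⟩

instance relModule (S : Set (Idn F)) : Module F (Rel S) :=
  Function.Surjective.module F (relAdd S) (relAdd_surj S) (fun _ _ => rfl)

instance relTower (S : Set (Idn F)) : IsScalarTower F (Rel S) (Rel S) := by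
  refine ⟨fun c x y => ?_⟩
  obtain ⟨x, rfl⟩ := relAdd_surj S x
  obtain ⟨y, rfl⟩ := relAdd_surj S y
  show ((((c • x) * y : Idn F)) : Rel S) = ((c • (x * y) : Idn F) : Rel S)
  rw [smul_mul_assoc]

instance relComm (S : Set (Idn F)) : SMulCommClass F (Rel S) (Rel S) := by
  refine ⟨fun c x y => ?_⟩
  obtain ⟨x, rfl⟩ := relAdd_surj S x
  obtain ⟨y, rfl⟩ := relAdd_surj S y
  show ((c • (x * y) : Idn F) : Rel S) = ((x * (c • y) : Idn F) : Rel S)
  rw [mul_smul_comm]

/-- the projection -/
def relHom (S : Set (Idn F)) : Idn F →ₙₐ[F] Rel S where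
  toFun x := (x : Rel S)
  map_smul' _ _ := rfl
  map_zero' := rfl
  map_add' _ _ := rfl
  map_mul' _ _ := rfl

theorem relHom_zero {S : Set (Idn F)} {x : Idn F} : relHom S x = 0 ↔ Con S x := by
  have : relHom S x = relHom S 0 ↔ Con S (x - 0) := rel_eq
  rwa [map_zero, sub_zero] at this

theorem rel_lift {S : Set (Idn F)} (μ : ℕ → Idn F) (f : Idn F) :
    FreeNonUnitalNonAssocAlgebra.lift F (fun i => relHom S (μ i)) f =
      relHom S (FreeNonUnitalNonAssocAlgebra.lift F μ f) := by
  have : ((relHom S).comp (FreeNonUnitalNonAssocAlgebra.lift F μ)) =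
      FreeNonUnitalNonAssocAlgebra.lift F (fun i => relHom S (μ i)) := by
    rw [← FreeNonUnitalNonAssocAlgebra.lift_unique]
    funext i
    simp
  rw [← this]
  rfl

theorem rel_inVariety (S : Set (Idn F)) : InVariety F S (Rel S) := by
  intro f hf ν
  choose μ hμ using fun i => relAdd_surj S (ν i)
  have : ν = fun i => relHom S (μ i) := by
    funext i; exact (hμ i).symm
  rw [this, rel_lift, relHom_zero]
  exact Con.inst f hf μ

theorem con_of {S : Set (Idn F)} {f : Idn F} (h : Sat F (Rel S) f) : Con S f := by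
  have h1 := h (fun i => relHom S (FreeNonUnitalNonAssocAlgebra.of F i))
  rw [rel_lift, relHom_zero] at h1
  have h2 : FreeNonUnitalNonAssocAlgebra.lift F (FreeNonUnitalNonAssocAlgebra.of F : ℕ → Idn F) =
      NonUnitalAlgHom.id F (Idn F) := by
    symm
    rw [← FreeNonUnitalNonAssocAlgebra.lift_unique]
    rfl
  have h3 : FreeNonUnitalNonAssocAlgebra.lift F
      (fun i => (FreeNonUnitalNonAssocAlgebra.of F i : Idn F)) f = f := by
    have : (fun i => (FreeNonUnitalNonAssocAlgebra.of F i : Idn F)) =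
      (FreeNonUnitalNonAssocAlgebra.of F : ℕ → Idn F) := rfl
    rw [this, h2]
    rfl
  rwa [h3] at h1

/-- compactness: a variety defined by an increasing union of sets of identities, which is not
defined by any of these sets, is not finitely based -/
theorem not_finitelyBased {S : ℕ → Set (Idn F)} (hS : Monotone S)
    (h : ∀ n, ∃ (A : Type u) (_ : NonUnitalNonAssocRing A) (_ : Module F A)
      (_ : IsScalarTower F A A) (_ : SMulCommClass F A A),
      InVariety F (S n) A ∧ ¬ InVariety F (⋃ n, S n) A) :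
    ¬ FinitelyBased F (⋃ n, S n) := by
  rintro ⟨T, hT, hTS⟩
  have h1 : ∀ f ∈ T, ∃ n, Con (S n) f := fun f hf =>
    Con.compact hS (con_of ((hTS (Rel (⋃ n, S n))).2 (rel_inVariety _) f hf))
  choose! k hk using h1
  obtain ⟨n, hn⟩ : ∃ n, ∀ f ∈ T, k f ≤ n := by
    obtain ⟨n, hn⟩ := (hT.image k).bddAbove
    exact ⟨n, fun f hf => hn ⟨f, hf, rfl⟩⟩
  obtain ⟨A, _, _, _, _, hA1, hA2⟩ := h n
  refine hA2 ((hTS A).1 fun f hf => ?_)
  exact ((hk f hf).mono (hS (hn f hf))).sat A hA1

end cons

end

end Pool.Agent.Y768.SP
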