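import Pool.Agent.Y768.SP.Main

/-!
# Continuum many varieties of solvable commutative alternative nil algebras
-/

set_option autoImplicit false

namespace Pool.Agent.Y768.SP

universe u

open ExteriorAlgebra

noncomputable section

variable {F : Type u} [Field F] {N : ℕ}

theorem al_nil [CharP F 3] (hN : Even N) (hN0 : N ≠ 0) (x : Al F N) : (x * x) * x = 0 := by
  refine al_ext ?_ ?_ ?_ ?_
  · rfl
  · rw [cp_mul, cp_mul, cv_mul, map_zero, mul_zero, add_zero, cp_zero, add_mul, mul_assoc,
      ι_sq_zero, mul_zero, add_zero]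
  · rw [cq_mul, cq_mul, cp_mul, cv_mul, map_zero, zero_mul, add_zero, cq_zero]
    have h := s3_aab (cp x) (ι F (cv x))
    have e : ι F (cv x) * (ι F (cv x) * cq x + ι F (cv x) * cq x - (cp x * cp x + cp x * cp x)) -
        ((cp x * ι F (cv x) + cp x * ι F (cv x)) * cp x +
          cp x * (cp x * ι F (cv x) + cp x * ι F (cv x))) =
        ι F (cv x) * ι F (cv x) * cq x + ι F (cv x) * ι F (cv x) * cq x -
        (cp x * cp x * ι F (cv x) + cp x * ι F (cv x) * cp x + ι F (cv x) * cp x * cp x) -
        (cp x * cp x * ι F (cv x) + cp x * ι F (cv x) * cp x + ι F (cv x) * cp x * cp x) := by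
      noncomm_ring
    rw [e, h, ι_sq_zero, zero_mul, add_zero, sub_zero, sub_zero]
  · rw [cz_mul, cq_mul, cp_mul, cz_zero]
    have h1 := tau_anti hN (cv x) (cq x * cp x)
    have h2 : tau F N (cp x * cp x * cp x) = 0 := by
      rw [cube, Algebra.algebraMap_eq_smul_one, map_smul, ← W_nil, tau_W (by simpa using hN0.symm),
        smul_zero]
    simp only [mul_add, add_mul, sub_mul, map_add, map_sub, ← mul_assoc] at h1 h2 ⊢
    linear_combination (2 : F) * h1 - 2 * h2

/-- the cube vanishes -/
def nilid (F : Type u) [Field F] : Idn F := (X F 0 * X F 0) * X F 0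

/-- the basic identities with the nil identity -/
def base3 (F : Type u) [Field F] : Set (Idn F) := insert (nilid F) (base F)

theorem base3_finite : (base3 F).Finite := by
  unfold base3 base
  exact Set.toFinite _

theorem sat_nil_iff {A : Type u} [NonUnitalNonAssocRing A] [Module F A] [IsScalarTower F A A]
    [SMulCommClass F A A] : Sat F A (nilid F) ↔ ∀ x : A, (x * x) * x = 0 := by
  constructor
  · intro h x
    have h1 := h (fun _ => x)
    rw [nilid, map_mul, map_mul] at h1
    simpa using h1
  · intro h ν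
    rw [nilid, map_mul, map_mul]
    exact h _

theorem al_base3 [CharP F 3] (hN : Even N) (hN0 : N ≠ 0) : InVariety F (base3 F) (Al F N) := by
  intro f hf
  rcases hf with rfl | rfl | rfl | rfl
  · exact sat_nil_iff.2 (al_nil hN hN0)
  · exact sat_comm_iff.2 al_comm
  · exact sat_alt_iff.2 (al_altL hN)
  · exact sat_solv_iff.2 al_solv

/-- the identity `k` holds in the algebra `n` unless they are equal -/
theorem al_sat_iff [CharP F 3] (n k : ℕ) : Sat F (Al F (2 * n + 6)) (fid F k) ↔ k ≠ n := by
  constructor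
  · rintro h rfl
    exact al_not k h
  · intro hk
    exact al_inVariety_ne hk

theorem al_mem [CharP F 3] (I : Set ℕ) (n : ℕ) :
    InVariety F (base3 F ∪ fid F '' I) (Al F (2 * n + 6)) ↔ n ∉ I := by
  have hN : Even (2 * n + 6) := ⟨n + 3, by ring⟩
  constructor
  · intro h hn
    exact al_not n (h _ (Or.inr ⟨n, hn, rfl⟩))
  · rintro h f (hf | ⟨k, hk, rfl⟩)
    · exact al_base3 hN (by omega) f hf
    · rw [al_sat_iff]
      rintro rfl
      exact h hk

theorem fb_iff [CharP F 3] (I : Set ℕ) :
    FinitelyBased F (base3 F ∪ fid F '' I) ↔ I.Finite := by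
  constructor
  · intro h
    by_contra hI
    have hI' : I.Infinite := hI
    have e : base3 F ∪ fid F '' I = ⋃ n : ℕ, (base3 F ∪ fid F '' (I ∩ {k | k < n})) := by
      ext f
      simp only [Set.mem_union, Set.mem_image, Set.mem_iUnion, Set.mem_inter_iff, Set.mem_setOf_eq]
      constructor
      · rintro (h | ⟨k, hk, rfl⟩)
        · exact ⟨0, Or.inl h⟩
        · exact ⟨k + 1, Or.inr ⟨k, ⟨hk, Nat.lt_succ_self k⟩, rfl⟩⟩
      · rintro ⟨n, h | ⟨k, hk, rfl⟩⟩
        · exact Or.inl h
        · exact Or.inr ⟨k, hk.1, rfl⟩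
    rw [e] at h
    refine not_finitelyBased (S := fun n : ℕ => base3 F ∪ fid F '' (I ∩ {k | k < n})) ?_ ?_ h
    · intro m n hmn
      apply Set.union_subset_union_right
      apply Set.image_mono
      exact Set.inter_subset_inter_right _ fun k hk => lt_of_lt_of_le hk hmn
    · intro n
      obtain ⟨k, hk, hnk⟩ := hI'.exists_gt n
      refine ⟨Al F (2 * k + 6), inferInstance, inferInstance, inferInstance, inferInstance, ?_, ?_⟩
      · rw [al_mem]
        rintro ⟨-, h2⟩
        have h3 : k < n := h2
        omega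
      · rw [← e, al_mem]
        exact fun h => h hk
  · intro hI
    exact ⟨_, base3_finite.union (hI.image _), fun A _ _ _ _ => Iff.rfl⟩

theorem le_iff [CharP F 3] (I J : Set ℕ) :
    (∀ (A : Type u) [NonUnitalNonAssocRing A] [Module F A] [IsScalarTower F A A]
      [SMulCommClass F A A], InVariety F (base3 F ∪ fid F '' I) A →
        InVariety F (base3 F ∪ fid F '' J) A) ↔ J ⊆ I := by
  constructor
  · intro h j hj
    by_contra hjI
    exact (al_mem J j).1 (h _ ((al_mem (F := F) I j).2 hjI)) hj
  · intro h A _ _ _ _ hA f hf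
    refine hA f ?_
    rcases hf with hf | ⟨k, hk, rfl⟩
    · exact Or.inl hf
    · exact Or.inr ⟨k, h hk, rfl⟩

end

end Pool.Agent.Y768.SP
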