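import Pool.Agent.Y768.SP.Ext

/-!
# The key computation in the exterior algebra
-/

set_option autoImplicit false

namespace Pool.Agent.Y768.SP

universe u

open ExteriorAlgebra

noncomputable section

section mod

variable {C R : Type u} [CommRing C] [Ring R] [Module C R] [IsScalarTower C R R]
  [SMulCommClass C R R]

theorem core1 (h3 : (3 : C) = 0) {u0 u2 u4 w0 w2 w4 : C} {P H0 H2 H4 : R}
    (a02 : w0 * w2 = 0) (a04 : w0 * w4 = 0) (a24 : w2 * w4 = 0)
    (s0 : P * P * H0 + P * H0 * P + H0 * P * P = 0)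
    (s2 : P * P * H2 + P * H2 * P + H2 * P * P = 0) :
    -((u0 • P + w0 • H0) * (u2 • P + w2 • H2) + (u2 • P + w2 • H2) * (u0 • P + w0 • H0)) *
      (u4 • P + w4 • H4) = (u0 * u2 * u4) • (P * P * P) + (w0 * u2 * u4) • (P * P * H0) +
        (u0 * w2 * u4) • (P * P * H2) + (u0 * u2 * w4) • (P * P * H4) := by
  have e : -((u0 • P + w0 • H0) * (u2 • P + w2 • H2) + (u2 • P + w2 • H2) * (u0 • P + w0 • H0)) *
      (u4 • P + w4 • H4) = -((2 * (u0 * u2 * u4)) • (P * P * P)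
        + (u0 * w2 * u4) • (P * H2 * P + H2 * P * P)
        + (w0 * u2 * u4) • (P * H0 * P + H0 * P * P)
        + ((w0 * w2) * u4) • (H0 * H2 * P + H2 * H0 * P)
        + (2 * (u0 * u2 * w4)) • (P * P * H4)
        + (u0 * (w2 * w4)) • (P * H2 * H4 + H2 * P * H4)
        + (u2 * (w0 * w4)) • (P * H0 * H4 + H0 * P * H4)
        + ((w0 * w2) * w4) • (H0 * H2 * H4 + H2 * H0 * H4)) := by
    simp only [mul_add, add_mul, neg_mul, smul_mul_smul_comm]
    module
  rw [e, a02, a04, a24]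
  have h2 : (2 : C) = -1 := by linear_combination h3
  rw [h2]
  have t0 : P * H0 * P + H0 * P * P = -(P * P * H0) := by
    rw [eq_neg_iff_add_eq_zero, ← s0]; abel
  have t2 : P * H2 * P + H2 * P * P = -(P * P * H2) := by
    rw [eq_neg_iff_add_eq_zero, ← s2]; abel
  rw [t0, t2]
  simp only [zero_mul, mul_zero, zero_smul, add_zero, neg_one_mul, neg_smul, smul_neg, neg_add,
    neg_neg]
  abel


/-- the abstract form of the computation -/
def e0 {X : Type u} (u : X → X → C) (P H0 H2 H4 : R) (a a0 a1 a2 a3 a4 a5 : X) : R :=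
  -((u a0 a1 • P + u a a1 • H0) * (u a2 a3 • P + u a a3 • H2) +
    (u a2 a3 • P + u a a3 • H2) * (u a0 a1 • P + u a a1 • H0)) *
      (u a4 a5 • P + u a a5 • H4)

theorem core2a {X : Type u} {u : X → X → C} (h3 : (3 : C) = 0) (hs : ∀ v w, u w v = -u v w)
    (hf : ∀ a b c d, u a b * u c d = -(u c b * u a d)) (h0 : ∀ a b d, u a b * u a d = 0)
    (P H0 H2 H4 H5 : R) (s : ∀ H : R, P * P * H + P * H * P + H * P * P = 0)
    (a a0 a1 a2 a3 a4 a5 : X) :
    e0 u P H0 H2 H4 a a0 a1 a2 a3 a4 a5 - e0 u P H0 H2 H5 a a0 a1 a2 a3 a5 a4 -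
      e0 u P H0 H5 H4 a a0 a1 a5 a3 a4 a2 - e0 u P H5 H2 H4 a a5 a1 a2 a3 a4 a0 =
      (u a0 a1 * u a2 a3 * u a4 a5) • (P * P * P) := by
  unfold e0
  rw [core1 h3 (h0 _ _ _) (h0 _ _ _) (h0 _ _ _) (s _) (s _),
    core1 h3 (h0 _ _ _) (h0 _ _ _) (h0 _ _ _) (s _) (s _),
    core1 h3 (h0 _ _ _) (h0 _ _ _) (h0 _ _ _) (s _) (s _),
    core1 h3 (h0 _ _ _) (h0 _ _ _) (h0 _ _ _) (s _) (s _)]
  have r1 : u a5 a4 = - u a4 a5 := hs _ _
  -- relations
  have q1 : u a5 a3 * u a4 a2 = -(u a2 a3 * u a4 a5) := by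
    rw [hs a2 a4, mul_neg, hf a5 a3 a2 a4, hs a4 a5]
    ring
  have q2 : u a5 a1 * u a4 a0 = -(u a0 a1 * u a4 a5) := by
    rw [hs a0 a4, mul_neg, hf a5 a1 a0 a4, hs a4 a5]
    ring
  have q3 : u a5 a3 * u a a2 = -(u a2 a3 * u a a5) := by
    rw [hs a2 a, mul_neg, hf a5 a3 a2 a, hs a a5]
    ring
  have q4 : u a5 a1 * u a a0 = -(u a0 a1 * u a a5) := by
    rw [hs a0 a, mul_neg, hf a5 a1 a0 a, hs a a5]
    ring
  have q5 : u a a3 * u a4 a2 = u a2 a3 * u a a4 := by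
    rw [hs a2 a4, mul_neg, hf a a3 a2 a4]
    ring
  have q6 : u a a1 * u a4 a0 = u a0 a1 * u a a4 := by
    rw [hs a0 a4, mul_neg, hf a a1 a0 a4]
    ring
  have c1 : u a0 a1 * u a2 a3 * u a5 a4 = -(u a0 a1 * u a2 a3 * u a4 a5) := by
    linear_combination (u a0 a1 * u a2 a3) * r1
  have c2 : u a a1 * u a2 a3 * u a5 a4 = -(u a a1 * u a2 a3 * u a4 a5) := by
    linear_combination (u a a1 * u a2 a3) * r1
  have c3 : u a0 a1 * u a a3 * u a5 a4 = -(u a0 a1 * u a a3 * u a4 a5) := by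
    linear_combination (u a0 a1 * u a a3) * r1
  have c4 : u a0 a1 * u a5 a3 * u a4 a2 = -(u a0 a1 * u a2 a3 * u a4 a5) := by
    linear_combination (u a0 a1) * q1
  have c5 : u a a1 * u a5 a3 * u a4 a2 = -(u a a1 * u a2 a3 * u a4 a5) := by
    linear_combination (u a a1) * q1
  have c6 : u a0 a1 * u a a3 * u a4 a2 = u a0 a1 * u a2 a3 * u a a4 := by
    linear_combination (u a0 a1) * q5
  have c7 : u a0 a1 * u a5 a3 * u a a2 = -(u a0 a1 * u a2 a3 * u a a5) := by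
    linear_combination (u a0 a1) * q3
  have c8 : u a5 a1 * u a2 a3 * u a4 a0 = -(u a0 a1 * u a2 a3 * u a4 a5) := by
    linear_combination (u a2 a3) * q2
  have c9 : u a a1 * u a2 a3 * u a4 a0 = u a0 a1 * u a2 a3 * u a a4 := by
    linear_combination (u a2 a3) * q6
  have c10 : u a5 a1 * u a a3 * u a4 a0 = -(u a0 a1 * u a a3 * u a4 a5) := by
    linear_combination (u a a3) * q2
  have c11 : u a5 a1 * u a2 a3 * u a a0 = -(u a0 a1 * u a2 a3 * u a a5) := by
    linear_combination (u a2 a3) * q4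
  rw [c1, c2, c3, c4, c5, c6, c7, c8, c9, c10, c11]
  have t0 : ∀ (c : C) (x : R), (3 * c) • x = 0 := by
    intro c x
    rw [h3, zero_mul, zero_smul]
  have t1 := t0 (u a0 a1 * u a2 a3 * u a4 a5) (P * P * P)
  have t2 := t0 (u a a1 * u a2 a3 * u a4 a5) (P * P * H0)
  have t3 := t0 (u a0 a1 * u a a3 * u a4 a5) (P * P * H2)
  have t4 := t0 (u a0 a1 * u a2 a3 * u a a5) (P * P * H4)
  have t5 := t0 (u a0 a1 * u a2 a3 * u a a4) (P * P * H5)
  linear_combination (norm := module) t1 + t2 + t3 + t4 - t5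

end mod

variable {F : Type u} [Field F] {M : Type u} [AddCommGroup M] [Module F M]

variable (F M) in
/-- the centre -/
abbrev Ce : Type u := Subalgebra.center F (ExteriorAlgebra F M)

instance ceComm : SMulCommClass (Ce F M) (ExteriorAlgebra F M) (ExteriorAlgebra F M) :=
  ⟨fun c x y => by
    show (c : ExteriorAlgebra F M) * (x * y) = x * ((c : ExteriorAlgebra F M) * y)
    rw [← mul_assoc, ← mul_assoc, Subalgebra.mem_center_iff.1 c.2 x]⟩

/-- the product of two vectors -/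
def uu (v w : M) : Ce F M := ⟨ι F v * ι F w, by
  rw [Subalgebra.mem_center_iff]
  intro X
  exact (central2 v w X).symm⟩

/-- the product of an even number of vectors -/
def uW (l : List M) (hl : Even l.length) : Ce F M := ⟨W l, by
  rw [Subalgebra.mem_center_iff]
  intro X
  exact (W_central hl X).symm⟩

theorem uu_swap (v w : M) : (uu w v : Ce F M) = - uu v w := by
  apply Subtype.ext
  exact ι_swap _ _

theorem uu_four (a b c d : M) : (uu a b * uu c d : Ce F M) = -(uu c b * uu a d) := by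
  apply Subtype.ext
  show ι F a * ι F b * (ι F c * ι F d) = -(ι F c * ι F b * (ι F a * ι F d))
  rw [← mul_assoc, ← mul_assoc, ι_mul_ι_swap, neg_mul]

theorem uu_self (a b d : M) : (uu a b * uu a d : Ce F M) = 0 := by
  apply Subtype.ext
  show ι F a * ι F b * (ι F a * ι F d) = 0
  rw [← mul_assoc, ι_mul_ι, zero_mul]

theorem ce_smul (c : Ce F M) (X : ExteriorAlgebra F M) : c • X = (c : ExteriorAlgebra F M) * X :=
  rfl

theorem smul_form (P H : ExteriorAlgebra F M) (a0 a a1 : M) :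
    (P * ι F a0 + H * ι F a) * ι F a1 = (uu a0 a1 : Ce F M) • P + (uu a a1 : Ce F M) • H := by
  rw [ce_smul, ce_smul, add_mul, mul_assoc, mul_assoc]
  show _ = ι F a0 * ι F a1 * P + ι F a * ι F a1 * H
  rw [central2, central2]

/-- the sum for one of the four arrangements -/
def ee (P H0 H2 H4 : ExteriorAlgebra F M) (a a0 a1 a2 a3 a4 a5 : M) : ExteriorAlgebra F M :=
  -(((P * ι F a0 + H0 * ι F a) * ι F a1) * ((P * ι F a2 + H2 * ι F a) * ι F a3) +
    ((P * ι F a2 + H2 * ι F a) * ι F a3) * ((P * ι F a0 + H0 * ι F a) * ι F a1)) *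
    ((P * ι F a4 + H4 * ι F a) * ι F a5)

theorem ce_three [CharP F 3] : (3 : Ce F M) = 0 := by
  have h := three_smul (F := F) (1 : Ce F M)
  rw [← h]
  norm_num

theorem ee_eq (P H0 H2 H4 : ExteriorAlgebra F M) (a a0 a1 a2 a3 a4 a5 : M) :
    ee P H0 H2 H4 a a0 a1 a2 a3 a4 a5 = e0 (uu (F := F)) P H0 H2 H4 a a0 a1 a2 a3 a4 a5 := by
  unfold ee e0
  rw [smul_form, smul_form, smul_form]

theorem core2 [CharP F 3] (P H0 H2 H4 H5 : ExteriorAlgebra F M) (a a0 a1 a2 a3 a4 a5 : M) :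
    ee P H0 H2 H4 a a0 a1 a2 a3 a4 a5 - ee P H0 H2 H5 a a0 a1 a2 a3 a5 a4 -
      ee P H0 H5 H4 a a0 a1 a5 a3 a4 a2 - ee P H5 H2 H4 a a5 a1 a2 a3 a4 a0 =
      (uu a0 a1 * uu a2 a3 * uu a4 a5 : Ce F M) • (P * P * P) := by
  rw [ee_eq, ee_eq, ee_eq, ee_eq]
  exact core2a ce_three uu_swap uu_four uu_self P H0 H2 H4 H5 (s3_aab P) a a0 a1 a2 a3 a4 a5

end

end Pool.Agent.Y768.SP
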