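import Mathlib

/-!
# Identities of nonassociative algebras: varieties and finite bases

An identity is an element of the free nonassociative algebra on countably many variables.
-/

set_option autoImplicit false

namespace Pool.Agent.Y768.SP

universe u

noncomputable section

section defs

variable (F : Type u) [Field F]

/-- An identity over `F`: an element of the free nonassociative `F`-algebra on the variables
`x 0, x 1, x 2, …`. -/
abbrev Idn : Type u := FreeNonUnitalNonAssocAlgebra F ℕ

/-- The nonassociative `F`-algebra `A` satisfies the identity `f`: every substitution of elements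
of `A` for the variables sends `f` to zero. -/
def Sat (A : Type u) [NonUnitalNonAssocRing A] [Module F A] [IsScalarTower F A A]
    [SMulCommClass F A A] (f : Idn F) : Prop :=
  ∀ ν : ℕ → A, FreeNonUnitalNonAssocAlgebra.lift F ν f = 0

/-- `A` lies in the variety defined by the set `S` of identities. -/
def InVariety (S : Set (Idn F)) (A : Type u) [NonUnitalNonAssocRing A] [Module F A]
    [IsScalarTower F A A] [SMulCommClass F A A] : Prop :=
  ∀ f ∈ S, Sat F A f

/-- The variety defined by `S` is finitely based: it is defined by finitely many identities. -/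
def FinitelyBased (S : Set (Idn F)) : Prop :=
  ∃ T : Set (Idn F), T.Finite ∧ ∀ (A : Type u) [NonUnitalNonAssocRing A] [Module F A]
    [IsScalarTower F A A] [SMulCommClass F A A], InVariety F T A ↔ InVariety F S A

/-- The derived powers: `A ^ (0) = A`, and `A ^ (k + 1)` is spanned by the products of two elements
of `A ^ (k)`. -/
def der (A : Type u) [NonUnitalNonAssocRing A] [Module F A] : ℕ → Submodule F A
  | 0 => ⊤
  | k + 1 => Submodule.span F {z | ∃ x ∈ der A k, ∃ y ∈ der A k, x * y = z}

/-- `A` is solvable of index `n`: `A ^ (n) = 0`. -/
def SolvableOfIndex (n : ℕ) (A : Type u) [NonUnitalNonAssocRing A] [Module F A] : Prop :=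
  der F A n = ⊥

end defs

/-- `A` is commutative. -/
def IsCommutative (A : Type u) [NonUnitalNonAssocRing A] : Prop := ∀ x y : A, x * y = y * x

/-- `A` is alternative. -/
def IsAlternative (A : Type u) [NonUnitalNonAssocRing A] : Prop :=
  ∀ x y : A, (x * x) * y = x * (x * y) ∧ (y * x) * x = y * (x * x)

/-- `A` is a Jordan algebra. -/
def IsJordanAlg (A : Type u) [NonUnitalNonAssocRing A] : Prop :=
  (∀ x y : A, x * y = y * x) ∧ ∀ x y : A, ((x * x) * y) * x = (x * x) * (y * x)

end

end Pool.Agent.Y768.SP
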