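import Pool.Agent.Y768.SP.Basic

/-!
# The identities
-/

set_option autoImplicit false

namespace Pool.Agent.Y768.SP

universe u

noncomputable section

section ops

variable {A : Type u}

/-- left-normed product `(((a t 0) t 1) ⋯) t (n - 1)` -/
def lp [Mul A] (a : A) (t : ℕ → A) : ℕ → A
  | 0 => a
  | n + 1 => lp a t n * t n

/-- the basic monomial -/
def EE [Mul A] (a : A) (t : ℕ → A) (n : ℕ) : A :=
  (((a * t 0) * t 1) * ((a * t 2) * t 3)) * lp a (fun i => t (i + 4)) n

/-- the signed sum of four monomials -/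
def gg [NonUnitalNonAssocRing A] (a : A) (t : ℕ → A) (n : ℕ) : A :=
  EE a t n - EE a (t ∘ Equiv.swap 4 5) n - EE a (t ∘ Equiv.swap 2 5) n -
    EE a (t ∘ Equiv.swap 0 5) n

end ops

section hom

variable {F : Type u} [Field F] {A B : Type u} [NonUnitalNonAssocRing A] [Module F A]
  [NonUnitalNonAssocRing B] [Module F B]

theorem map_lp (φ : A →ₙₐ[F] B) (a : A) (t : ℕ → A) (n : ℕ) :
    φ (lp a t n) = lp (φ a) (fun i => φ (t i)) n := by
  induction n with
  | zero => rfl
  | succ n ih => rw [lp, lp, map_mul, ih]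

theorem map_EE (φ : A →ₙₐ[F] B) (a : A) (t : ℕ → A) (n : ℕ) :
    φ (EE a t n) = EE (φ a) (fun i => φ (t i)) n := by
  unfold EE
  simp only [map_mul, map_lp]

theorem map_gg (φ : A →ₙₐ[F] B) (a : A) (t : ℕ → A) (n : ℕ) :
    φ (gg a t n) = gg (φ a) (fun i => φ (t i)) n := by
  unfold gg
  simp only [map_sub, map_EE]
  rfl

end hom

section idn

variable (F : Type u) [Field F]

/-- the variable -/
abbrev X (i : ℕ) : Idn F := FreeNonUnitalNonAssocAlgebra.of F i

/-- commutativity, alternativity and solvability -/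
def base : Set (Idn F) :=
  {X F 0 * X F 1 - X F 1 * X F 0, (X F 0 * X F 0) * X F 1 - X F 0 * (X F 0 * X F 1),
    ((X F 0 * X F 1) * (X F 2 * X F 3)) * ((X F 4 * X F 5) * (X F 6 * X F 7))}

/-- the special identities -/
def fid (k : ℕ) : Idn F := gg (X F 0) (fun i => X F (i + 1)) (2 * k + 2)

/-- the defining identities up to a bound -/
def Sid (n : ℕ) : Set (Idn F) := base F ∪ {f | ∃ k < n, f = fid F k}

theorem Sid_mono : Monotone (Sid F) := by
  intro m n hmn f hf
  rcases hf with hf | ⟨k, hk, rfl⟩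
  · exact Or.inl hf
  · exact Or.inr ⟨k, hk.trans_le hmn, rfl⟩

variable {F}
variable {A : Type u} [NonUnitalNonAssocRing A] [Module F A] [IsScalarTower F A A]
  [SMulCommClass F A A]

theorem sat_fid_iff {k : ℕ} :
    Sat F A (fid F k) ↔ ∀ (a : A) (t : ℕ → A), gg a t (2 * k + 2) = 0 := by
  constructor
  · intro h a t
    have h1 := h (fun i => Nat.casesOn i a t)
    rw [fid, map_gg] at h1
    simpa using h1
  · intro h ν
    rw [fid, map_gg]
    exact h _ _

theorem sat_comm_iff : Sat F A (X F 0 * X F 1 - X F 1 * X F 0) ↔ ∀ x y : A, x * y = y * x := by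
  constructor
  · intro h x y
    have h1 := h (fun i => Nat.casesOn i x fun _ => y)
    rw [map_sub, map_mul, map_mul, sub_eq_zero] at h1
    simpa using h1
  · intro h ν
    rw [map_sub, map_mul, map_mul, sub_eq_zero]
    exact h _ _

theorem sat_alt_iff : Sat F A ((X F 0 * X F 0) * X F 1 - X F 0 * (X F 0 * X F 1)) ↔
    ∀ x y : A, (x * x) * y = x * (x * y) := by
  constructor
  · intro h x y
    have h1 := h (fun i => Nat.casesOn i x fun _ => y)
    rw [map_sub, map_mul, map_mul, map_mul, map_mul, sub_eq_zero] at h1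
    simpa using h1
  · intro h ν
    rw [map_sub, map_mul, map_mul, map_mul, map_mul, sub_eq_zero]
    exact h _ _

theorem sat_solv_iff : Sat F A (((X F 0 * X F 1) * (X F 2 * X F 3)) *
      ((X F 4 * X F 5) * (X F 6 * X F 7))) ↔
    ∀ x : ℕ → A, ((x 0 * x 1) * (x 2 * x 3)) * ((x 4 * x 5) * (x 6 * x 7)) = 0 := by
  constructor
  · intro h x
    have h1 := h x
    simpa using h1
  · intro h ν
    simpa using h ν

theorem der_succ_ind {k : ℕ} {P : A → Prop} (h : ∀ x ∈ der F A k, ∀ y ∈ der F A k, P (x * y))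
    (h0 : P 0) (ha : ∀ x y, P x → P y → P (x + y)) (hs : ∀ (c : F) x, P x → P (c • x))
    {z : A} (hz : z ∈ der F A (k + 1)) : P z := by
  have hz' : z ∈ Submodule.span F {z | ∃ x ∈ der F A k, ∃ y ∈ der F A k, x * y = z} := hz
  induction hz' using Submodule.span_induction with
  | mem x hx => obtain ⟨x, hx, y, hy, rfl⟩ := hx; exact h x hx y hy
  | zero => exact h0
  | add x y _ _ h1 h2 => exact ha _ _ (h1 (by assumption)) (h2 (by assumption))
  | smul c x _ h1 => exact hs _ _ (h1 (by assumption))

theorem der_one_ind {P : A → Prop} (h : ∀ x y, P (x * y))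
    (h0 : P 0) (ha : ∀ x y, P x → P y → P (x + y)) (hs : ∀ (c : F) x, P x → P (c • x))
    {z : A} (hz : z ∈ der F A 1) : P z :=
  der_succ_ind (fun x _ y _ => h x y) h0 ha hs hz

theorem solv_of (h : ∀ x : ℕ → A,
    ((x 0 * x 1) * (x 2 * x 3)) * ((x 4 * x 5) * (x 6 * x 7)) = 0) : SolvableOfIndex F 3 A := by
  have h8 : ∀ a b c d e f g i : A, ((a * b) * (c * d)) * ((e * f) * (g * i)) = 0 := by
    intro a b c d e f g i
    exact h (fun n => match n with
      | 0 => a
      | 1 => b
      | 2 => c
      | 3 => d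
      | 4 => e
      | 5 => f
      | 6 => g
      | _ => i)
  -- each of the four inner products may be replaced by an element of the square
  have h1 : ∀ u ∈ der F A 1, ∀ v ∈ der F A 1, ∀ u' ∈ der F A 1, ∀ v' ∈ der F A 1,
      (u * v) * (u' * v') = 0 := by
    intro u hu v hv u' hu' v' hv'
    refine der_one_ind (F := F) (P := fun u => (u * v) * (u' * v') = 0) (fun a b => ?_) ?_ ?_ ?_ hu
    · refine der_one_ind (F := F) (P := fun v => ((a * b) * v) * (u' * v') = 0)
        (fun c d => ?_) ?_ ?_ ?_ hv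
      · refine der_one_ind (F := F) (P := fun u' => ((a * b) * (c * d)) * (u' * v') = 0)
          (fun e f => ?_) ?_ ?_ ?_ hu'
        · refine der_one_ind (F := F) (P := fun v' => ((a * b) * (c * d)) * ((e * f) * v') = 0)
            (fun g i => h8 a b c d e f g i) ?_ ?_ ?_ hv'
          · simp only [mul_zero]
          · intro x y hx hy; rw [mul_add, mul_add, hx, hy, add_zero]
          · intro r x hx; rw [mul_smul_comm, mul_smul_comm, hx, smul_zero]
        · simp only [zero_mul, mul_zero]
        · intro x y hx hy; rw [add_mul, mul_add, hx, hy, add_zero]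
        · intro r x hx; rw [smul_mul_assoc, mul_smul_comm, hx, smul_zero]
      · simp only [zero_mul, mul_zero]
      · intro x y hx hy; rw [mul_add, add_mul, hx, hy, add_zero]
      · intro r x hx; rw [mul_smul_comm, smul_mul_assoc, hx, smul_zero]
    · simp only [zero_mul]
    · intro x y hx hy; rw [add_mul, add_mul, hx, hy, add_zero]
    · intro r x hx; rw [smul_mul_assoc, smul_mul_assoc, hx, smul_zero]
  have h2 : ∀ u ∈ der F A 2, ∀ v ∈ der F A 2, u * v = 0 := by
    intro u hu v hv
    refine der_succ_ind (F := F) (k := 1) (P := fun u => u * v = 0) (fun a ha b hb => ?_) ?_ ?_ ?_ hu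
    · refine der_succ_ind (F := F) (k := 1) (P := fun v => (a * b) * v = 0)
        (fun c hc d hd => h1 a ha b hb c hc d hd) ?_ ?_ ?_ hv
      · simp only [mul_zero]
      · intro x y hx hy; rw [mul_add, hx, hy, add_zero]
      · intro r x hx; rw [mul_smul_comm, hx, smul_zero]
    · simp only [zero_mul]
    · intro x y hx hy; rw [add_mul, hx, hy, add_zero]
    · intro r x hx; rw [smul_mul_assoc, hx, smul_zero]
  unfold SolvableOfIndex
  rw [eq_bot_iff]
  intro z hz
  rw [Submodule.mem_bot]
  refine der_succ_ind (F := F) (k := 2) (P := fun z => z = 0) h2 rfl ?_ ?_ hz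
  · intro x y hx hy; rw [hx, hy, add_zero]
  · intro r x hx; rw [hx, smul_zero]

/-- every algebra satisfying the basic identities is commutative, alternative and solvable -/
theorem base_props {S : Set (Idn F)} (hS : base F ⊆ S) (hA : InVariety F S A) :
    IsCommutative A ∧ IsAlternative A ∧ IsJordanAlg A ∧ SolvableOfIndex F 3 A := by
  have h1 : ∀ x y : A, x * y = y * x := sat_comm_iff.1 (hA _ (hS (by simp [base])))
  have h2 : ∀ x y : A, (x * x) * y = x * (x * y) := sat_alt_iff.1 (hA _ (hS (by simp [base])))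
  have h3 : IsAlternative A := by
    intro x y
    refine ⟨h2 x y, ?_⟩
    rw [h1 (y * x) x, h1 y x, ← h2, h1]
  exact ⟨h1, h3, isJordan_of h1 h3, solv_of (sat_solv_iff.1 (hA _ (hS (by simp [base]))))⟩

end idn

end

end Pool.Agent.Y768.SP
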