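import Pool.Agent.Y768.SP.Alg
import Pool.Agent.Y768.SP.Core
import Pool.Agent.Y768.SP.Ident

/-!
# A variety of solvable commutative alternative algebras that is not finitely based
-/

set_option autoImplicit false

namespace Pool.Agent.Y768.SP

universe u

open ExteriorAlgebra

noncomputable section

/-- the list of the first `n` values -/
def wd {M : Type u} (s : ℕ → M) (n : ℕ) : List M := (List.range n).map s

theorem wd_length {M : Type u} (s : ℕ → M) (n : ℕ) : (wd s n).length = n := by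
  simp [wd]

theorem wd_succ {M : Type u} (s : ℕ → M) (n : ℕ) : wd s (n + 1) = wd s n ++ [s n] := by
  simp [wd, List.range_succ]

theorem wd_succ' {M : Type u} (s : ℕ → M) (n : ℕ) :
    wd s (n + 1) = s 0 :: wd (fun i => s (i + 1)) n := by
  simp [wd, List.range_succ_eq_map, Function.comp_def]

theorem wd_ofFn {M : Type u} (s : ℕ → M) (n : ℕ) : wd s n = List.ofFn fun i : Fin n => s i := by
  apply List.ext_getElem
  · simp [wd]
  · intro i h1 h2
    simp [wd]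

variable {F : Type u} [Field F] {N : ℕ}

theorem cv_lp (a : Al F N) (t : ℕ → Al F N) (n : ℕ) : cv (lp a t (n + 1)) = 0 := rfl

theorem cp_lp (a : Al F N) (t : ℕ → Al F N) (n : ℕ) :
    cp (lp a t (n + 1)) = (cp a * ι F (cv (t 0)) + cp (t 0) * ι F (cv a)) *
      W (wd (fun i => cv (t (i + 1))) n) := by
  induction n with
  | zero =>
    show cp (a * t 0) = _
    rw [cp_mul]
    simp [wd, W_nil]
  | succ n ih =>
    show cp (lp a t (n + 1) * t (n + 1)) = _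
    rw [cp_mul, cv_lp, map_zero, mul_zero, add_zero, ih, wd_succ, W_append, mul_assoc]
    congr 2
    simp [W]

/-- products of two products have no `p`-component -/
theorem cp_mul_mul (x y z w : Al F N) : cp ((x * y) * (z * w)) = 0 := by
  rw [cp_mul, cv_mul, cv_mul, map_zero, mul_zero, mul_zero, add_zero]

theorem cq_mul_mul (x y z w : Al F N) : cq ((x * y) * (z * w)) =
    -(cp (x * y) * cp (z * w) + cp (z * w) * cp (x * y)) := by
  rw [cq_mul, cv_mul, cv_mul, map_zero, zero_mul, zero_mul, add_zero, zero_sub]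

theorem EE_cv (a : Al F N) (t : ℕ → Al F N) (n : ℕ) : cv (EE a t n) = 0 := rfl

theorem EE_cp (a : Al F N) (t : ℕ → Al F N) (n : ℕ) : cp (EE a t (n + 1)) = 0 := by
  unfold EE
  rw [cp_mul, cv_mul, cv_lp, map_zero, mul_zero, mul_zero, add_zero]

theorem EE_cq (a : Al F N) (t : ℕ → Al F N) (n : ℕ) : cq (EE a t (n + 1)) = 0 := by
  unfold EE
  rw [cq_mul, cv_mul, cv_lp, cp_mul_mul, map_zero, zero_mul, zero_mul, mul_zero, zero_mul, add_zero,
    sub_zero]

theorem EE_cz (a : Al F N) (t : ℕ → Al F N) (m : ℕ) : cz (EE a t (m + 2)) =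
    tau F N (ee (cp a) (cp (t 0)) (cp (t 2)) (cp (t 4)) (cv a) (cv (t 0)) (cv (t 1)) (cv (t 2))
      (cv (t 3)) (cv (t 4)) (cv (t 5)) * W (wd (fun i => cv (t (i + 6))) m)) := by
  unfold EE
  rw [cz_mul, cp_mul_mul, mul_zero, map_zero, add_zero, cq_mul_mul, cp_lp, wd_succ', W_cons]
  have h1 : ∀ x y z : Al F N, cp ((x * y) * z) =
      (cp x * ι F (cv y) + cp y * ι F (cv x)) * ι F (cv z) := by
    intro x y z
    rw [cp_mul, cv_mul, map_zero, mul_zero, add_zero, cp_mul]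
  rw [h1, h1]
  unfold ee
  simp only [mul_assoc]

theorem gg_cv (a : Al F N) (t : ℕ → Al F N) (n : ℕ) : cv (gg a t n) = 0 := by
  unfold gg
  rw [cv_sub, cv_sub, cv_sub, EE_cv, EE_cv, EE_cv, EE_cv, sub_zero, sub_zero, sub_zero]

theorem gg_cp (a : Al F N) (t : ℕ → Al F N) (n : ℕ) : cp (gg a t (n + 1)) = 0 := by
  unfold gg
  rw [cp_sub, cp_sub, cp_sub, EE_cp, EE_cp, EE_cp, EE_cp, sub_zero, sub_zero, sub_zero]

theorem gg_cq (a : Al F N) (t : ℕ → Al F N) (n : ℕ) : cq (gg a t (n + 1)) = 0 := by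
  unfold gg
  rw [cq_sub, cq_sub, cq_sub, EE_cq, EE_cq, EE_cq, EE_cq, sub_zero, sub_zero, sub_zero]

theorem swap_tail (t : ℕ → Al F N) {i j : ℕ} (hi : i < 6) (hj : j < 6) (m : ℕ) :
    wd (fun k => cv ((t ∘ Equiv.swap i j) (k + 6))) m = wd (fun k => cv (t (k + 6))) m := by
  congr 1
  funext k
  rw [Function.comp_apply, Equiv.swap_apply_of_ne_of_ne (by omega) (by omega)]

theorem gg_cz [CharP F 3] (a : Al F N) (t : ℕ → Al F N) (k : ℕ) : cz (gg a t (2 * k + 2)) =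
    (algebraMapInv (cp a)) ^ 3 * tau F N (W (wd (fun i => cv (t i)) (2 * k + 6))) := by
  unfold gg
  rw [cz_sub, cz_sub, cz_sub, EE_cz, EE_cz, EE_cz, EE_cz, swap_tail t (by norm_num) (by norm_num),
    swap_tail t (by norm_num) (by norm_num), swap_tail t (by norm_num) (by norm_num),
    ← map_sub, ← map_sub, ← map_sub, ← sub_mul, ← sub_mul, ← sub_mul]
  have e0 : (Equiv.swap 4 5 : ℕ ≃ ℕ) 0 = 0 := by decide
  have e1 : (Equiv.swap 4 5 : ℕ ≃ ℕ) 1 = 1 := by decide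
  have e2 : (Equiv.swap 4 5 : ℕ ≃ ℕ) 2 = 2 := by decide
  have e3 : (Equiv.swap 4 5 : ℕ ≃ ℕ) 3 = 3 := by decide
  have e4 : (Equiv.swap 4 5 : ℕ ≃ ℕ) 4 = 5 := by decide
  have e5 : (Equiv.swap 4 5 : ℕ ≃ ℕ) 5 = 4 := by decide
  have f0 : (Equiv.swap 2 5 : ℕ ≃ ℕ) 0 = 0 := by decide
  have f1 : (Equiv.swap 2 5 : ℕ ≃ ℕ) 1 = 1 := by decide
  have f2 : (Equiv.swap 2 5 : ℕ ≃ ℕ) 2 = 5 := by decide
  have f3 : (Equiv.swap 2 5 : ℕ ≃ ℕ) 3 = 3 := by decide
  have f4 : (Equiv.swap 2 5 : ℕ ≃ ℕ) 4 = 4 := by decide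
  have f5 : (Equiv.swap 2 5 : ℕ ≃ ℕ) 5 = 2 := by decide
  have g0 : (Equiv.swap 0 5 : ℕ ≃ ℕ) 0 = 5 := by decide
  have g1 : (Equiv.swap 0 5 : ℕ ≃ ℕ) 1 = 1 := by decide
  have g2 : (Equiv.swap 0 5 : ℕ ≃ ℕ) 2 = 2 := by decide
  have g3 : (Equiv.swap 0 5 : ℕ ≃ ℕ) 3 = 3 := by decide
  have g4 : (Equiv.swap 0 5 : ℕ ≃ ℕ) 4 = 4 := by decide
  have g5 : (Equiv.swap 0 5 : ℕ ≃ ℕ) 5 = 0 := by decide
  simp only [Function.comp_apply, e0, e1, e2, e3, e4, e5, f0, f1, f2, f3, f4, f5, g0, g1, g2, g3,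
    g4, g5]
  rw [core2, cube, ce_smul, ← Algebra.commutes, ← Algebra.smul_def, smul_mul_assoc, map_smul,
    smul_eq_mul]
  congr 2
  have h6 : 2 * k + 6 = 2 * k + 1 + 1 + 1 + 1 + 1 + 1 := by ring
  rw [h6, wd_succ', wd_succ', wd_succ', wd_succ', wd_succ', wd_succ', W_cons, W_cons, W_cons,
    W_cons, W_cons, W_cons]
  show (ι F (cv (t 0)) * ι F (cv (t 1))) * (ι F (cv (t 2)) * ι F (cv (t 3))) *
    (ι F (cv (t 4)) * ι F (cv (t 5))) * W (wd (fun i => cv (t (i + 6))) (2 * k)) = _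
  simp only [mul_assoc]

theorem al_solv (x : ℕ → Al F N) :
    ((x 0 * x 1) * (x 2 * x 3)) * ((x 4 * x 5) * (x 6 * x 7)) = 0 := by
  refine al_ext ?_ ?_ ?_ ?_
  · rfl
  · rw [cp_mul_mul]; rfl
  · rw [cq_mul, cv_mul, cv_mul, cp_mul_mul, cp_mul_mul, map_zero, zero_mul, zero_mul, mul_zero,
      add_zero, sub_zero]
    rfl
  · rw [cz_mul, cp_mul_mul, cp_mul_mul, mul_zero, mul_zero, map_zero, add_zero]
    rfl

theorem al_inVariety_ne [CharP F 3] {n k : ℕ} (hk : k ≠ n) :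
    Sat F (Al F (2 * n + 6)) (fid F k) := by
  rw [sat_fid_iff]
  intro a t
  refine al_ext ?_ ?_ ?_ ?_
  · rw [gg_cv]; rfl
  · rw [gg_cp]; rfl
  · rw [gg_cq]; rfl
  · rw [gg_cz, tau_W, mul_zero]
    · rfl
    · rw [wd_length]; omega

theorem al_inVariety [CharP F 3] (n : ℕ) : InVariety F (Sid F n) (Al F (2 * n + 6)) := by
  have hN : Even (2 * n + 6) := ⟨n + 3, by ring⟩
  intro f hf
  rcases hf with hf | ⟨k, hk, rfl⟩
  · rcases hf with rfl | rfl | rfl
    · exact sat_comm_iff.2 al_comm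
    · exact sat_alt_iff.2 (al_altL hN)
    · exact sat_solv_iff.2 al_solv
  · exact al_inVariety_ne (by omega)

variable (F) (N) in
/-- test element -/
def ea : Al F N := ((0, 1, 0, 0) : (Fin N → F) × Ex F N × Ex F N × F)

variable (F) (N) in
/-- test elements -/
def et (i : ℕ) : Al F N := ((if h : i < N then Pi.single ⟨i, h⟩ 1 else 0, 0, 0, 0) :
      (Fin N → F) × Ex F N × Ex F N × F)

theorem cv_et (i : Fin N) : cv (et F N i) = Pi.single i 1 := by
  show (if h : (i : ℕ) < N then (Pi.single ⟨i, h⟩ 1 : Fin N → F) else 0) = _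
  rw [dif_pos i.2]

theorem cp_ea : cp (ea F N) = 1 := rfl

theorem al_not [CharP F 3] (n : ℕ) : ¬ Sat F (Al F (2 * n + 6)) (fid F n) := by
  rw [sat_fid_iff]
  intro h
  have h1 := h (ea F _) (et F _)
  have h2 := congrArg cz h1
  rw [gg_cz, wd_ofFn, cp_ea, map_one, one_pow, one_mul] at h2
  have e2 : (fun i : Fin (2 * n + 6) => cv (et F (2 * n + 6) i)) =
      fun i : Fin (2 * n + 6) => (Pi.single i 1 : Fin (2 * n + 6) → F) := by
    funext i
    exact cv_et i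
  rw [e2, tau_basis] at h2
  exact one_ne_zero h2

/-- the main theorem -/
theorem main (F : Type u) [Field F] [CharP F 3] : ¬ FinitelyBased F (⋃ n, Sid F n) := by
  apply not_finitelyBased (Sid_mono F)
  intro n
  refine ⟨Al F (2 * n + 6), inferInstance, inferInstance, inferInstance, inferInstance,
    al_inVariety n, fun h => ?_⟩
  exact al_not n (h _ (Set.mem_iUnion.2 ⟨n + 1, Or.inr ⟨n, Nat.lt_succ_self n, rfl⟩⟩))

end

end Pool.Agent.Y768.SP
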